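import Mathlib

/-!
# MP_664f87_an: the sequence `(1 + k + k²)/k!` is not a complex zero decreasing sequence

For a real polynomial `g` without real zeros let `f` be its preimage under `a_k ↦ γ_k a_k`, i.e.
`f = ∑ g_k k!/(1+k+k²) x^k`.  If `γ` were a CZDS then `f` could not have a real zero, so
`g ↦ f(1) = ∑ g_k k!/(1+k+k²)` would be positive on positive polynomials, i.e. all Hankel matrices
of `k!/(1+k+k²)` would be positive semidefinite.  The one of size `37` is not: below we take
`g = q² + 1` with `q` an explicit integer polynomial of degree `36`, and `f(1) < 0 < f(0)`.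
-/

open Polynomial

namespace Pool.Agent.Results.MP_664f87_an.NotCZDS

open Classical in
/-- The number of non-real complex zeros of a real polynomial, counted with multiplicity. -/
noncomputable def Zc (f : ℝ[X]) : ℕ :=
  Multiset.card ((f.map (algebraMap ℝ ℂ)).roots.filter fun z => z.im ≠ 0)

/-- The polynomial `∑ γ_k a_k x^k` obtained from `f = ∑ a_k x^k`. -/
noncomputable def act (γ : ℕ → ℝ) (f : ℝ[X]) : ℝ[X] :=
  ∑ k ∈ Finset.range (f.natDegree + 1), C (γ k * f.coeff k) * X ^ k

/-- `γ` is a complex zero decreasing sequence. -/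
def IsCZDS (γ : ℕ → ℝ) : Prop := ∀ f : ℝ[X], f ≠ 0 → Zc (act γ f) ≤ Zc f

/-- The sequence `(1 + k + k²)/k!`. -/
noncomputable def gam (k : ℕ) : ℝ := (1 + (k : ℝ) + (k : ℝ) ^ 2) / (k.factorial : ℝ)

/-- coefficients of the polynomial `q` -/
def vl : List ℤ :=
  [230390000000000000000000000000000000000000000000000,
   -5809220000000000000000000000000000000000000000000000,
   45655260000000000000000000000000000000000000000000000,
   -167901238000000000000000000000000000000000000000000000,
   348834209000000000000000000000000000000000000000000000,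
   -457231422500000000000000000000000000000000000000000000,
   406565067360000000000000000000000000000000000000000000,
   -258132317440000000000000000000000000000000000000000000,
   121544687177900000000000000000000000000000000000000000,
   -43694274625261000000000000000000000000000000000000000,
   12269373533793200000000000000000000000000000000000000,
   -2740765907850720000000000000000000000000000000000000,
   494339333351819000000000000000000000000000000000000,
   -72874207342690670000000000000000000000000000000000,
   8869156693199529000000000000000000000000000000000,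
   -898576160413303030000000000000000000000000000000,
   76305797206372243000000000000000000000000000000,
   -5461436500579796230000000000000000000000000000,
   330928717237420262000000000000000000000000000,
   -17034579894849386360000000000000000000000000,
   746753762305527673000000000000000000000000,
   -27922539945139627750000000000000000000000,
   891148378290147708100000000000000000000,
   -24268266398770735020000000000000000000,
   563192689649040781300000000000000000,
   -11110922423254268013000000000000000,
   185650221727189001000000000000000,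
   -2613287967359589704000000000000,
   30765565711312813940000000000,
   -299953055505729085000000000,
   2389775995616342360000000,
   -15275577413475447900000,
   76322776148841923000,
   -286718573235129150,
   760642490138560,
   -1268924660376,
   1000000000]

def v (i : ℕ) : ℤ := vl.getD i 0

def cc (k : ℕ) : ℤ := (∑ i ∈ Finset.range (k + 1), v i * v (k - i)) + (if k = 0 then 1 else 0)

def DD : ℤ := ∏ k ∈ Finset.range 73, ((k : ℤ) ^ 2 + k + 1)

def tot : ℤ := ∑ k ∈ Finset.range 73, cc k * ((k.factorial : ℤ) * (DD / ((k : ℤ) ^ 2 + k + 1)))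

theorem tot_neg : tot < 0 := by decide +kernel

theorem v36 : v 36 = 1000000000 := by decide

theorem v_zero (i : ℕ) (hi : 37 ≤ i) : v i = 0 := by
  unfold v
  rw [List.getD_eq_default]
  exact hi

theorem act_coeff (γ : ℕ → ℝ) (f : ℝ[X]) (k : ℕ) : (act γ f).coeff k = γ k * f.coeff k := by
  unfold act
  rw [finsetSum_coeff]
  simp only [coeff_C_mul_X_pow]
  rw [Finset.sum_ite_eq (Finset.range (f.natDegree + 1)) k]
  split_ifs with h
  · rfl
  · rw [coeff_eq_zero_of_natDegree_lt (by simpa using h), mul_zero]

/-- the polynomial `q` -/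
noncomputable def q : ℝ[X] := ∑ i ∈ Finset.range 37, C ((v i : ℤ) : ℝ) * X ^ i

theorem q_coeff (k : ℕ) : q.coeff k = (v k : ℝ) := by
  unfold q
  rw [finsetSum_coeff]
  simp only [coeff_C_mul_X_pow]
  rw [Finset.sum_ite_eq (Finset.range 37) k]
  split_ifs with h
  · rfl
  · rw [v_zero k (by simpa using h)]; simp

theorem q_natDegree : q.natDegree = 36 := by
  apply le_antisymm
  · rw [natDegree_le_iff_coeff_eq_zero]
    intro n hn
    rw [q_coeff, v_zero n hn]; simp
  · apply le_natDegree_of_ne_zero
    rw [q_coeff, v36]; norm_num

noncomputable def g : ℝ[X] := q * q + 1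

theorem g_coeff (k : ℕ) : g.coeff k = (cc k : ℝ) := by
  unfold g cc
  rw [coeff_add, coeff_mul, Finset.Nat.sum_antidiagonal_eq_sum_range_succ (fun i j => q.coeff i * q.coeff j)]
  simp only [q_coeff, coeff_one]
  push_cast
  congr 1

theorem q_ne : q ≠ 0 := by
  intro h
  have := q_natDegree
  rw [h] at this
  simp at this

theorem qq_natDegree : (q * q).natDegree = 72 := by
  rw [natDegree_mul q_ne q_ne, q_natDegree]

theorem g_natDegree : g.natDegree = 72 := by
  unfold g
  rw [natDegree_add_eq_left_of_natDegree_lt]
  · exact qq_natDegree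
  · rw [qq_natDegree]; simp

/-- the inverse sequence -/
noncomputable def del (k : ℕ) : ℝ := (k.factorial : ℝ) / (1 + (k : ℝ) + (k : ℝ) ^ 2)

theorem den_pos (k : ℕ) : (0 : ℝ) < 1 + (k : ℝ) + (k : ℝ) ^ 2 := by positivity

theorem gam_mul_del (k : ℕ) : gam k * del k = 1 := by
  unfold gam del
  have h1 := (den_pos k).ne'
  have h2 : (k.factorial : ℝ) ≠ 0 := by positivity
  field_simp

noncomputable def f : ℝ[X] := act del g

theorem act_f : act gam f = g := by
  ext k
  rw [act_coeff, f, act_coeff, ← mul_assoc, gam_mul_del, one_mul]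

theorem f_natDegree : f.natDegree = 72 := by
  apply le_antisymm
  · rw [natDegree_le_iff_coeff_eq_zero]
    intro n hn
    rw [f, act_coeff, coeff_eq_zero_of_natDegree_lt (by rw [g_natDegree]; exact hn), mul_zero]
  · apply le_natDegree_of_ne_zero
    rw [f, act_coeff]
    apply mul_ne_zero
    · unfold del
      have := den_pos 72
      positivity
    · have : g.leadingCoeff ≠ 0 := by
        rw [Ne, leadingCoeff_eq_zero]
        intro h
        have := g_natDegree
        rw [h] at this
        simp at this
      rwa [leadingCoeff, g_natDegree] at this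

theorem f_ne : f ≠ 0 := by
  intro h
  have := f_natDegree
  rw [h] at this
  simp at this

theorem DD_pos : (0 : ℤ) < DD := by
  unfold DD
  apply Finset.prod_pos
  intro k _
  positivity

theorem del_eq (k : ℕ) (hk : k ∈ Finset.range 73) :
    del k * (DD : ℝ) = (((k.factorial : ℤ) * (DD / ((k : ℤ) ^ 2 + k + 1)) : ℤ) : ℝ) := by
  have hd : ((k : ℤ) ^ 2 + k + 1) ∣ DD := Finset.dvd_prod_of_mem (fun k : ℕ => ((k : ℤ) ^ 2 + k + 1)) hk
  obtain ⟨e, he⟩ := hd
  have hpos : (0 : ℤ) < (k : ℤ) ^ 2 + k + 1 := by positivity
  rw [he, Int.mul_ediv_cancel_left _ hpos.ne']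
  unfold del
  have h1 := (den_pos k).ne'
  push_cast
  field_simp
  ring

theorem f_eval_one : f.eval 1 * (DD : ℝ) = (tot : ℝ) := by
  rw [eval_eq_sum_range, f_natDegree]
  simp only [one_pow, mul_one]
  unfold tot
  rw [Finset.sum_mul]
  push_cast
  apply Finset.sum_congr rfl
  intro k hk
  have h := del_eq k hk
  push_cast at h
  rw [f, act_coeff, g_coeff, mul_comm (del k), mul_assoc, h]

theorem f_eval_one_neg : f.eval 1 < 0 := by
  have h := f_eval_one
  have h1 : (tot : ℝ) < 0 := by exact_mod_cast tot_neg
  have h2 : (0 : ℝ) < (DD : ℝ) := by exact_mod_cast DD_pos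
  by_contra hc
  push Not at hc
  have := mul_nonneg hc h2.le
  linarith

theorem f_eval_zero_pos : 0 < f.eval 0 := by
  rw [← coeff_zero_eq_eval_zero, f, act_coeff]
  apply mul_pos
  · unfold del
    norm_num
  · have : g.coeff 0 = (v 0 : ℝ) ^ 2 + 1 := by
      unfold g
      rw [coeff_add, mul_coeff_zero, q_coeff, coeff_one_zero]; ring
    rw [this]
    positivity

theorem f_root : ∃ r : ℝ, f.eval r = 0 := by
  have hcont : ContinuousOn (fun x => f.eval x) (Set.Icc (0 : ℝ) 1) := f.continuous.continuousOn
  have := intermediate_value_Icc' (zero_le_one) hcont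
  obtain ⟨r, _, hr⟩ := this ⟨f_eval_one_neg.le, f_eval_zero_pos.le⟩
  exact ⟨r, hr⟩

theorem g_pos (x : ℝ) : 0 < g.eval x := by
  unfold g
  rw [eval_add, eval_mul, eval_one]
  nlinarith [mul_self_nonneg (q.eval x)]

theorem card_roots_map (p : ℝ[X]) :
    Multiset.card (p.map (algebraMap ℝ ℂ)).roots = p.natDegree := by
  rw [← natDegree_map (p := p) (algebraMap ℝ ℂ)]
  exact (IsAlgClosed.splits _).natDegree_eq_card_roots.symm

theorem Zc_g : Zc g = 72 := by
  unfold Zc
  rw [Multiset.filter_eq_self.2, card_roots_map, g_natDegree]
  intro z hz him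
  have hz' := (mem_roots'.1 hz).2
  have hre : z = ((z.re : ℝ) : ℂ) := by
    apply Complex.ext <;> simp [him]
  rw [IsRoot.def, hre, eval_map_algebraMap] at hz'
  have h2 : aeval ((z.re : ℝ) : ℂ) g = ((g.eval z.re : ℝ) : ℂ) := by
    have := aeval_algebraMap_apply ℂ z.re g
    simpa using this
  rw [h2] at hz'
  have := g_pos z.re
  norm_cast at hz'
  linarith

theorem Zc_f : Zc f < 72 := by
  classical
  unfold Zc
  obtain ⟨r, hr⟩ := f_root
  have hmem : ((r : ℝ) : ℂ) ∈ (f.map (algebraMap ℝ ℂ)).roots := by
    rw [mem_roots']
    refine ⟨?_, ?_⟩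
    · rw [Ne, Polynomial.map_eq_zero]; exact f_ne
    · rw [IsRoot.def, eval_map_algebraMap]
      have := aeval_algebraMap_apply ℂ r f
      have h3 : aeval ((r : ℝ) : ℂ) f = ((f.eval r : ℝ) : ℂ) := by simpa using this
      rw [h3, hr]; simp
  have hcard := card_roots_map f
  rw [f_natDegree] at hcard
  rw [← hcard]
  apply Multiset.card_lt_card
  refine lt_of_le_of_ne (Multiset.filter_le _ _) ?_
  intro heq
  rw [← heq] at hmem
  have := (Multiset.mem_filter.1 hmem).2
  simp at this

/-- The sequence `(1 + k + k²)/k!` is not a complex zero decreasing sequence: there is a real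
polynomial `f` of degree `72` with a real zero whose image has `72` non-real zeros. -/
theorem result : ¬ IsCZDS (fun k => (1 + (k : ℝ) + (k : ℝ) ^ 2) / (k.factorial : ℝ)) := by
  intro h
  have h1 := h f f_ne
  have h2 : act (fun k => (1 + (k : ℝ) + (k : ℝ) ^ 2) / (k.factorial : ℝ)) f = g := act_f
  rw [h2, Zc_g] at h1
  have := Zc_f
  omega

end Pool.Agent.Results.MP_664f87_an.NotCZDS
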